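import Pool.Agent.Helper57_C2.Stmts
import Pool.Agent.Helper66_K9.Asm
import Pool.Agent.Helper66_DF.FinE
import Pool.Agent.Helper57_K9.Fin2

/-!
# Squad C2, row FIR: the relative form for the primes two and three
-/

open scoped BigOperators

noncomputable section

namespace Pool.Agent.PP.C2.H10

open Pool.Agent.Helper51_AWC Pool.Agent.Helper79_WRA Pool.Agent.PP Pool.Agent.PP.KF
open Pool.Agent.PP.K9

attribute [local instance] Ideal.Quotient.field

/-- the finite abelian groups with a cyclic subgroup of index at most `ℓ` -/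
def CL (ℓ : ℕ) : (Q : Type) → [Group Q] → Prop := fun Q _ =>
  Finite Q ∧ (∀ a b : Q, a * b = b * a) ∧ ∃ u : Q, (Subgroup.zpowers u).index ≤ ℓ

/-- the class is closed under subgroups -/
theorem cl_subCl (ℓ : ℕ) : DF.SubCl (CL ℓ) := by
  intro Q R _ _ j hj hR
  obtain ⟨hfin, hab, u, hu⟩ := hR
  have hfQ : Finite Q := Finite.of_injective j hj
  refine ⟨hfQ, fun a b => hj (by rw [map_mul, map_mul, hab]), ?_⟩
  have hK : IsCyclic ((Subgroup.zpowers u).comap j) := by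
    have h1 : IsCyclic (Subgroup.zpowers u) := inferInstance
    refine isCyclic_of_injective (G := (Subgroup.zpowers u).comap j)
      ((j.comp ((Subgroup.zpowers u).comap j).subtype).codRestrict (Subgroup.zpowers u)
        fun x => x.2) ?_
    intro a b h
    have h2 : j (a : Q) = j (b : Q) := congrArg Subtype.val h
    exact Subtype.ext (hj h2)
  obtain ⟨v, hv⟩ := (Subgroup.isCyclic_iff_exists_zpowers_eq_top _).1 hK
  refine ⟨v, ?_⟩
  rw [hv, Subgroup.index_comap]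
  refine le_trans ?_ hu
  rw [← Subgroup.relIndex_top_right (Subgroup.zpowers u)]
  refine Subgroup.relIndex_le_of_le_right le_top ?_
  rw [Subgroup.relIndex_top_right]
  exact Subgroup.index_ne_zero_of_finite

/-- the structure of the noncyclic members of the class -/
theorem cl_str {ℓ : ℕ} [hℓ : Fact ℓ.Prime] {G : Type} [Group G] {V : Subgroup G}
    (hp : IsPGroup ℓ V) (hV : CL ℓ V) (hc : ¬ IsCyclic V) :
    ∃ n : ℕ, 1 ≤ n ∧ Tn ℓ n V := by
  obtain ⟨hfin, hab, u, hu⟩ := hV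
  obtain ⟨k, hk⟩ := (IsPGroup.iff_card).1 hp
  have hmul : Nat.card (Subgroup.zpowers u) * (Subgroup.zpowers u).index = Nat.card V :=
    Subgroup.card_mul_index _
  have hdvd : (Subgroup.zpowers u).index ∣ ℓ ^ k := by
    rw [← hk]
    exact Subgroup.index_dvd_card _
  obtain ⟨j, -, hj⟩ := (Nat.dvd_prime_pow hℓ.out).1 hdvd
  have hj1 : j ≤ 1 := by
    by_contra h3
    have h5 : ℓ ^ 2 ≤ ℓ ^ j := Nat.pow_le_pow_right hℓ.out.pos (by omega)
    have h6 := hℓ.out.two_le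
    rw [hj] at hu
    nlinarith
  have hj0 : j ≠ 0 := by
    intro h0
    rw [h0, pow_zero] at hj
    have h1 : Subgroup.zpowers u = ⊤ := Subgroup.index_eq_one.1 hj
    exact hc ⟨u, fun x => (h1 ▸ Subgroup.mem_top x : x ∈ Subgroup.zpowers u)⟩
  have hj2 : j = 1 := by omega
  rw [hj2, pow_one] at hj
  rw [hj, Nat.card_zpowers, hk] at hmul
  have hk0 : k ≠ 0 := by
    intro h0
    rw [h0, pow_zero] at hk
    have := (Nat.card_eq_one_iff_unique.1 hk).1
    exact hc isCyclic_of_subsingleton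
  obtain ⟨n, rfl⟩ := Nat.exists_eq_succ_of_ne_zero hk0
  have hord : orderOf u = ℓ ^ n := by
    have h1 : orderOf u * ℓ = ℓ ^ n * ℓ := by rw [hmul, pow_succ]
    exact Nat.eq_of_mul_eq_mul_right hℓ.out.pos h1
  refine ⟨n, ?_, ?_, hk, ⟨u, u.2, ?_⟩, hc⟩
  · rcases Nat.eq_zero_or_pos n with h0 | h0
    · subst h0
      exact absurd (isCyclic_of_prime_card (p := ℓ) (by rw [hk]; norm_num)) hc
    · exact h0
  · intro a ha b hb
    exact congrArg Subtype.val (hab ⟨a, ha⟩ ⟨b, hb⟩)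
  · rw [Subgroup.orderOf_coe, hord]

/-- the hypothesis of the reduction theorem -/
theorem gq (awn : AwnStmt) (gq4 : Gq4Stmt) (hC : Ct9Stmt) (hFM : FmgStmt) (hD : CD2.D2aStmt)
    (hA : AddStmt) (ℓ : ℕ) [hℓ : Fact ℓ.Prime] (hℓ3 : ℓ ≤ 3)
    (M : Ideal (integralClosure ℤ ℂ)) [M.IsMaximal] (hM : (ℓ : integralClosure ℤ ℂ) ∈ M)
    (G : Type) [Group G] [Finite G] (hO : opCore ℓ G = ⊥) (e : G → FF M) (he : IsIdem e)
    (hp : Pos ℓ e ⊤) (hdf : DF.DfE ℓ (CL ℓ) e ⊤) : YY ℓ ⊤ e = 0 := by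
  have hF : GoodF ℓ (FF M) := H50.fld ℓ hℓ.out M hM
  refine hA ℓ (FF M) hF G ⊤ inferInstance e he fun f hf hef => ?_
  have hfe : mulF f e = f := by rw [H46.mulF_comm hf.1.1, hef]
  have hpf : Pos ℓ f ⊤ := H46.pos_mono hf.1 hfe hp
  have hdf' : DF.DfE ℓ (CL ℓ) f ⊤ := DF.DfE.le hF he.1 hf.1.1 hef hdf
  obtain ⟨V, hV⟩ := K9.H57.exists_tp (ℓ := ℓ) hf.2.1
  have hfm : ∀ Q : Subgroup G, IsPGroup ℓ Q → Gd f Q → ∃ g, Q ≤ conjS g V :=
    (hFM ℓ M hM G f hf V hV).1
  by_cases hcyc : IsCyclic V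
  · refine hD ℓ (FF M) hF G ⊤ inferInstance f hf.1 hpf
      ⟨f, hf.1, fun x hx => absurd (Subgroup.mem_top x) hx, hf.1.2, fun Q hQ hQp hbr => ?_⟩
    have h1 : ∃ g ∈ Subgroup.centralizer (Q : Set G), f g ≠ 0 := by
      by_contra hcon
      push Not at hcon
      apply hbr
      funext t
      by_cases ht : t ∈ Subgroup.centralizer (Q : Set G)
      · rw [H66.br_of_mem ht]
        exact hcon t ht
      · rw [H66.br_of_not_mem ht]
        rfl
    obtain ⟨g, hg⟩ := hfm Q hQp h1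
    have e1 : V ≃* conjS g V := V.equivMapOfInjective _ (MulAut.conj g).injective
    have : IsCyclic (conjS g V) := isCyclic_of_surjective e1.toMonoidHom e1.surjective
    exact isCyclic_of_injective (Subgroup.inclusion hg) (Subgroup.inclusion_injective hg)
  · obtain ⟨n, hn1, hn⟩ := cl_str hV.pg (hdf' V le_top hV.pg hV.gd) hcyc
    rcases Nat.lt_or_ge n 2 with h2 | h2
    · have hn' : n = 1 := by omega
      subst hn'
      have hcard : Nat.card V = ℓ ^ 2 := hn.card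
      have hℓ2 := hℓ.out.two_le
      have hcases : ℓ = 2 ∨ ℓ = 3 := by omega
      rcases hcases with rfl | rfl
      · refine gq4 M (by exact_mod_cast hM) G f hf.1 hpf fun Q hQ hQp h1 => ?_
        obtain ⟨g, hg⟩ := hfm Q hQp h1
        have e1 : V ≃* conjS g V := V.equivMapOfInjective _ (MulAut.conj g).injective
        refine K9.H57.v4_mono ((e1.symm.toMonoidHom).comp (Subgroup.inclusion hg)) ?_
          (K9.H57.v4_of (by rw [hcard]; norm_num) hcyc)
        exact e1.symm.injective.comp (Subgroup.inclusion_injective hg)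
      · exact hC M hM G hO f hf hpf V hV (by rw [hcard]; norm_num) hcyc
    · exact awn ℓ M hM n h2 G f hf V hV hn

/-- the quotient by a normal subgroup is in the class -/
theorem cl_quot {N : Type} [Group N] [Finite N] (O P : Subgroup N) [hnN : O.Normal] (ℓ : ℕ)
    (hab : ∀ a ∈ P, ∀ b ∈ P, a * b * a⁻¹ * b⁻¹ ∈ O) (u : N) (huP : u ∈ P)
    (hu : (O ⊔ Subgroup.zpowers u).relIndex P ≤ ℓ) : CL ℓ (P ⧸ O.subgroupOf P) := by
  refine ⟨inferInstance, ?_, QuotientGroup.mk' (O.subgroupOf P) ⟨u, huP⟩, ?_⟩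
  · intro a b
    obtain ⟨a, rfl⟩ := QuotientGroup.mk'_surjective _ a
    obtain ⟨b, rfl⟩ := QuotientGroup.mk'_surjective _ b
    rw [← map_mul, ← map_mul, QuotientGroup.mk'_apply, QuotientGroup.mk'_apply,
      QuotientGroup.eq, Subgroup.mem_subgroupOf]
    have h1 := hab (b⁻¹ : N) (P.inv_mem b.2) (a⁻¹ : N) (P.inv_mem a.2)
    have h2 : (((a * b)⁻¹ * (b * a) : P) : N) =
        (b : N)⁻¹ * (a : N)⁻¹ * ((b : N)⁻¹)⁻¹ * ((a : N)⁻¹)⁻¹ := by
      push_cast
      group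
    rw [h2]
    exact h1
  · have h1 : ((Subgroup.zpowers (QuotientGroup.mk' (O.subgroupOf P) ⟨u, huP⟩)).comap
        (QuotientGroup.mk' (O.subgroupOf P))).index =
        (Subgroup.zpowers (QuotientGroup.mk' (O.subgroupOf P) ⟨u, huP⟩)).index :=
      Subgroup.index_comap_of_surjective _ (QuotientGroup.mk'_surjective _)
    rw [← h1]
    refine le_trans ?_ hu
    refine Nat.le_of_dvd (Nat.pos_of_ne_zero Subgroup.index_ne_zero_of_finite) ?_
    refine Subgroup.index_dvd_of_le ?_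
    intro y hy
    have hy' : (y : N) ∈ O ⊔ Subgroup.zpowers u := hy
    rw [← SetLike.mem_coe, Subgroup.normal_mul] at hy'
    obtain ⟨a, ha, b, hb, hab'⟩ := hy'
    obtain ⟨k, rfl⟩ := Subgroup.mem_zpowers_iff.1 hb
    rw [Subgroup.mem_comap, Subgroup.mem_zpowers_iff]
    refine ⟨k, ?_⟩
    rw [← map_zpow, QuotientGroup.mk'_apply, QuotientGroup.mk'_apply, QuotientGroup.eq,
      Subgroup.mem_subgroupOf]
    have h3 : ((((⟨u, huP⟩ : P) ^ k)⁻¹ * y : P) : N) = (u ^ k)⁻¹ * a * ((u ^ k)⁻¹)⁻¹ := by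
      push_cast
      rw [← hab']
      group
    rw [h3]
    exact hnN.conj_mem a ha _

/-- FIR, with its ingredients -/
theorem fir' (relq : DF.RelQEStmt) (fst : DF.FstStmt) (gq4 : Gq4Stmt) (hC : Ct9Stmt)
    (hFM : FmgStmt) (hD : CD2.D2aStmt) (hA : AddStmt) (awn : AwnStmt) : FirStmt := by
  intro ℓ hℓ hℓ3 M _ hM G _ _ hc N hN χ hχ ψ hψ hχψ hL hS
  obtain ⟨x, P, hx, hPC, hPp, hPi, hab, u, huP, hu⟩ := hS
  have hn := H75.opCore_normal (A := G) ℓ
  have hnN : (opCore ℓ N).Normal := H75.opCore_normal (A := N) ℓ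
  refine DF.finI relq fst hℓ.out hM (cl_subCl ℓ) hc hN ?_ hχ hψ hχψ hL
    ⟨x, P, fun h1 => hx ?_, hPC, hPp, hPi, _, inferInstance,
      QuotientGroup.mk' ((opCore ℓ N).subgroupOf P), ?_, ?_⟩
  · intro S _ _ _ _ _ D _ _ hO _ _ _ e he _ hpos hdf
    exact gq awn gq4 hC hFM hD hA ℓ hℓ3 M hM D hO e he hpos hdf
  · have hint : IsIntegral ℤ (omega (MonoidHom.id N) ψ x) :=
      Pool.Agent.Helper51_AWC.omega_integral _ hψ x
    rw [← Pool.Agent.Helper79_WRA.red_eq_iff hint isIntegral_zero, h1,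
      Pool.Agent.Helper79_WRA.red_zero]
  · exact cl_quot (opCore ℓ N) P ℓ hab u huP hu
  · intro u
    rw [QuotientGroup.mk'_apply, QuotientGroup.eq_one_iff]
    exact Subgroup.mem_subgroupOf

/-- FIR -/
theorem fir (awn : AwnStmt) : FirStmt :=
  fir' (DF.relQE_ DF.dfq_ DF.H43.covE DF.dbl_) KF.fst_ KF.gq4_ K9.ct9_ K9.H69.fmg CD2.Asm.d2a_
    H9.addStmt awn

end Pool.Agent.PP.C2.H10
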